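import Mathlib

set_option autoImplicit false

namespace Pool.Agent.Results.MP_36a0ac_al.LocSolvable

variable {K : Type} [Field K] {L : Type}

theorem fd_of_ker [AddCommGroup L] [Module K L] {V : Type} [AddCommGroup V] [Module K V]
    [FiniteDimensional K V] (f : L →ₗ[K] V) (h : FiniteDimensional K (LinearMap.ker f)) :
    FiniteDimensional K L := by
  have h1 : Module.Finite K (L ⧸ LinearMap.ker f) :=
    Module.Finite.equiv f.quotKerEquivRange.symm
  exact Module.Finite.of_submodule_quotient (LinearMap.ker f)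

variable [LieRing L] [LieAlgebra K L]

theorem local_gen (c : L) (hJ : LieSubmodule.lieSpan K L ({c} : Set L) = (⊤ : LieIdeal K L))
    (y : L) : ∃ F : Set L, F.Finite ∧ ∀ T : LieSubalgebra K L, F ⊆ T → ∀ N : Submodule K L,
      c ∈ N → (∀ t ∈ T, ∀ n ∈ N, ⁅t, n⁆ ∈ N) → y ∈ N := by
  let Q : LieSubmodule K L L :=
    { carrier := {y | ∃ F : Set L, F.Finite ∧ ∀ T : LieSubalgebra K L, F ⊆ T →
        ∀ N : Submodule K L, c ∈ N → (∀ t ∈ T, ∀ n ∈ N, ⁅t, n⁆ ∈ N) → y ∈ N}
      add_mem' := by
        rintro a b ⟨F, hF, h1⟩ ⟨F', hF', h2⟩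
        refine ⟨F ∪ F', hF.union hF', fun T hT N hc hN => ?_⟩
        exact N.add_mem (h1 T (Set.subset_union_left.trans hT) N hc hN)
          (h2 T (Set.subset_union_right.trans hT) N hc hN)
      zero_mem' := ⟨∅, Set.finite_empty, fun T _ N _ _ => N.zero_mem⟩
      smul_mem' := by
        rintro k a ⟨F, hF, h1⟩
        exact ⟨F, hF, fun T hT N hc hN => N.smul_mem k (h1 T hT N hc hN)⟩
      lie_mem := by
        rintro x m ⟨F, hF, h1⟩
        refine ⟨insert x F, hF.insert x, fun T hT N hc hN => ?_⟩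
        exact hN x (hT (Set.mem_insert x F)) m (h1 T ((Set.subset_insert x F).trans hT) N hc hN) }
  have h1 : LieSubmodule.lieSpan K L ({c} : Set L) ≤ Q := by
    rw [LieSubmodule.lieSpan_le]
    intro z hz
    rw [Set.mem_singleton_iff] at hz
    subst hz
    exact ⟨∅, Set.finite_empty, fun T _ N hc _ => hc⟩
  have h2 : y ∈ LieSubmodule.lieSpan K L ({c} : Set L) := by rw [hJ]; trivial
  exact h1 h2

theorem loc_solv (a b : L)
    (hJ : LieSubmodule.lieSpan K L ({⁅a, b⁆} : Set L) = (⊤ : LieIdeal K L))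
    (hsol : ∀ s : Set L, s.Finite → LieAlgebra.IsSolvable (LieSubalgebra.lieSpan K L s)) :
    ⁅a, b⁆ = 0 := by
  obtain ⟨Fa, hFa, ha⟩ := local_gen _ hJ a
  obtain ⟨Fb, hFb, hb⟩ := local_gen _ hJ b
  let s : Set L := Fa ∪ Fb ∪ {a, b}
  have hs : s.Finite := (hFa.union hFb).union (by simp)
  let T := LieSubalgebra.lieSpan K L s
  have hsT : s ⊆ T := LieSubalgebra.subset_lieSpan
  have hsolT : LieAlgebra.IsSolvable T := hsol s hs
  obtain ⟨n, hn⟩ := (LieAlgebra.isSolvable_iff K T).1 hsolT
  have haT : a ∈ T := hsT (Or.inr (by simp))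
  have hbT : b ∈ T := hsT (Or.inr (by simp))
  let N : ℕ → Submodule K L := fun n =>
    (LieAlgebra.derivedSeries K T n).toSubmodule.map (T.incl : T →ₗ[K] L)
  have hN : ∀ n, ∀ t ∈ T, ∀ m ∈ N n, ⁅t, m⁆ ∈ N n := by
    rintro n t ht m ⟨m', hm', rfl⟩
    refine ⟨⁅(⟨t, ht⟩ : T), m'⁆, ?_, rfl⟩
    exact (LieAlgebra.derivedSeries K T n).lie_mem hm'
  have hc : ∀ n, ⁅a, b⁆ ∈ N n := by
    intro n
    induction n with
    | zero =>
      refine ⟨⁅(⟨a, haT⟩ : T), (⟨b, hbT⟩ : T)⁆, ?_, rfl⟩
      show _ ∈ LieAlgebra.derivedSeries K T 0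
      simp [LieAlgebra.derivedSeries_def]
    | succ n ih =>
      obtain ⟨a', ha', haa⟩ := ha T (((Set.subset_union_left).trans Set.subset_union_left).trans hsT)
        (N n) ih (hN n)
      obtain ⟨b', hb', hbb⟩ := hb T (((Set.subset_union_right).trans Set.subset_union_left).trans hsT)
        (N n) ih (hN n)
      refine ⟨⁅a', b'⁆, ?_, ?_⟩
      · show _ ∈ LieAlgebra.derivedSeries K T (n + 1)
        rw [LieAlgebra.derivedSeries_def, LieAlgebra.derivedSeriesOfIdeal_succ]
        exact LieSubmodule.lie_mem_lie ha' hb'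
      · rw [← haa, ← hbb]; rfl
  obtain ⟨z, hz, hzz⟩ := hc n
  have hz' : z ∈ LieAlgebra.derivedSeries K T n := hz
  rw [hn] at hz'
  have : z = 0 := by simpa using hz'
  rw [← hzz, this]; rfl

/-- **Main theorem.** Let `L` be an infinitely generated Lie algebra over a field `K` all of whose
proper subalgebras are finite dimensional. Then (1) `L` has a finitely generated subalgebra which
is not solvable, (2) `L` is perfect, (3) every proper ideal of `L` is central. -/
theorem result (K : Type) [Field K] (L : Type) [LieRing L] [LieAlgebra K L]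
    (hinf : ¬ ∃ s : Set L, s.Finite ∧ LieSubalgebra.lieSpan K L s = ⊤)
    (hcon : ∀ H : LieSubalgebra K L, H ≠ ⊤ → FiniteDimensional K H) :
    (∃ s : Set L, s.Finite ∧ ¬ LieAlgebra.IsSolvable (LieSubalgebra.lieSpan K L s)) ∧
    (∀ D : Submodule K L, (∀ x y : L, ⁅x, y⁆ ∈ D) → D = ⊤) ∧
    (∀ I : LieIdeal K L, I ≠ ⊤ → ∀ x : L, ∀ y ∈ I, ⁅x, y⁆ = 0) := by
  have hL : ¬ FiniteDimensional K L := by
    intro hfd
    obtain ⟨S, hS⟩ := (Module.Finite.fg_top : (⊤ : Submodule K L).FG)
    apply hinf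
    refine ⟨S, S.finite_toSet, ?_⟩
    rw [eq_top_iff]
    intro x _
    have h1 : x ∈ Submodule.span K (S : Set L) := by rw [hS]; trivial
    exact LieSubalgebra.submodule_span_le_lieSpan h1
  have hcon' : ∀ W : Submodule K L, (∀ x ∈ W, ∀ y ∈ W, ⁅x, y⁆ ∈ W) → W ≠ ⊤ →
      FiniteDimensional K W := by
    intro W hW hne
    let M : LieSubalgebra K L := { W with lie_mem' := fun {x y} hx hy => hW x hx y hy }
    have h1 : M ≠ ⊤ := by
      intro h
      apply hne
      rw [eq_top_iff]
      intro x _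
      have : x ∈ M := by rw [h]; trivial
      exact this
    exact hcon M h1
  -- perfect
  have hD : ∀ D : Submodule K L, (∀ x y : L, ⁅x, y⁆ ∈ D) → D = ⊤ := by
    intro D hD
    by_contra hne
    obtain ⟨f, hf, hle⟩ := Submodule.exists_le_ker_of_lt_top D (lt_top_iff_ne_top.2 hne)
    apply hL
    apply fd_of_ker f
    apply hcon'
    · intro x _ y _
      exact hle (hD x y)
    · intro h
      exact hf (LinearMap.ker_eq_top.1 h)
  -- proper ideals are central
  have hcen : ∀ I : LieIdeal K L, I ≠ ⊤ → ∀ x : L, ∀ y ∈ I, ⁅x, y⁆ = 0 := by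
    intro I hI
    have hIfd : FiniteDimensional K I := by
      have := hcon' I.toSubmodule (fun x _ y hy => I.lie_mem hy) (by
        intro h
        apply hI
        rw [eq_top_iff]
        intro x _
        have : x ∈ I.toSubmodule := by rw [h]; trivial
        exact this)
      exact this
    let f : L →ₗ[K] Module.End K I := (LieModule.toEnd K L I : L →ₗ[K] Module.End K I)
    have hker : LinearMap.ker f = ⊤ := by
      by_contra hne
      apply hL
      apply fd_of_ker f
      apply hcon' _ _ hne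
      intro x hx y hy
      rw [LinearMap.mem_ker] at hx hy ⊢
      have hx' : ∀ z : I, ⁅x, z⁆ = 0 := fun z => LinearMap.congr_fun hx z
      have hy' : ∀ z : I, ⁅y, z⁆ = 0 := fun z => LinearMap.congr_fun hy z
      apply LinearMap.ext
      intro z
      show ⁅⁅x, y⁆, z⁆ = (0 : I)
      rw [lie_lie, hy' z, lie_zero, hx' z, lie_zero, sub_zero]
    intro x y hy
    have hx : x ∈ LinearMap.ker f := by rw [hker]; trivial
    rw [LinearMap.mem_ker] at hx
    have h1 := LinearMap.congr_fun hx ⟨y, hy⟩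
    have h2 := congrArg Subtype.val h1
    exact h2
  refine ⟨?_, hD, hcen⟩
  by_contra hsol'
  push Not at hsol'
  have hsol : ∀ s : Set L, s.Finite → LieAlgebra.IsSolvable (LieSubalgebra.lieSpan K L s) := hsol'
  -- a non central commutator
  obtain ⟨a, b, x₀, hab⟩ : ∃ a b x₀ : L, ⁅x₀, ⁅a, b⁆⁆ ≠ 0 := by
    by_contra hall
    push Not at hall
    let Z : Submodule K L :=
      { carrier := {z | ∀ x : L, ⁅x, z⁆ = 0}
        add_mem' := fun {a b} ha hb x => by rw [lie_add, ha x, hb x, add_zero]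
        zero_mem' := fun x => lie_zero x
        smul_mem' := fun k a ha x => by rw [lie_smul, ha x, smul_zero] }
    have hZ : Z = ⊤ := hD Z (fun a b x => hall a b x)
    have hcomm : ∀ x y : L, ⁅x, y⁆ = 0 := by
      intro x y
      have : y ∈ Z := by rw [hZ]; trivial
      exact this x
    have hbot : (⊥ : Submodule K L) = ⊤ := hD ⊥ (fun x y => by rw [hcomm x y]; exact Submodule.zero_mem _)
    apply hL
    have : Module.Finite K (⊤ : Submodule K L) := by rw [← hbot]; infer_instance
    exact Module.Finite.equiv (Submodule.topEquiv (R := K) (M := L))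
  have hJ : LieSubmodule.lieSpan K L ({⁅a, b⁆} : Set L) = (⊤ : LieIdeal K L) := by
    by_contra hne
    apply hab
    exact hcen _ hne x₀ _ (LieSubmodule.subset_lieSpan (Set.mem_singleton _))
  apply hab
  rw [loc_solv a b hJ hsol, lie_zero]

end Pool.Agent.Results.MP_36a0ac_al.LocSolvable
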