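import Mathlib

/-! Structure of an infinitely generated Lie algebra all of whose proper subalgebras are finite
dimensional. -/

namespace Pool.Agent.Results.MP_36a0ac_al.PerfectSimpleQuotient

open LieSubalgebra

variable {K L : Type} [Field K] [LieRing L] [LieAlgebra K L]

lemma not_fin (h1 : ¬ ∃ S : Finset L, lieSpan K L (S : Set L) = ⊤) : ¬ Module.Finite K L := by
  intro h
  obtain ⟨S, hS⟩ := Module.finite_def.mp h
  apply h1
  refine ⟨S, ?_⟩
  rw [eq_top_iff]
  intro x _
  have hx : x ∈ Submodule.span K (S : Set L) := by rw [hS]; trivial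
  exact submodule_span_le_lieSpan (R := K) (s := (S : Set L)) hx

lemma ker_inf (h1 : ¬ ∃ S : Finset L, lieSpan K L (S : Set L) = ⊤) {V : Type} [AddCommGroup V]
    [Module K V] [Module.Finite K V] (f : L →ₗ[K] V) : ¬ Module.Finite K (LinearMap.ker f) := by
  intro h
  apply not_fin h1
  rw [Module.finite_def]
  apply Submodule.fg_of_fg_map_of_fg_inf_ker f
  · exact IsNoetherian.noetherian _
  · rw [top_inf_eq]
    exact Module.Finite.iff_fg.mp h

theorem result : ∀ (K L : Type) [Field K] [LieRing L] [LieAlgebra K L],
    (¬ ∃ S : Finset L, lieSpan K L (S : Set L) = ⊤) →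
    (∀ M : LieSubalgebra K L, M ≠ ⊤ → Module.Finite K M) →
    (∀ S : Finset L, Module.Finite K (lieSpan K L (S : Set L))) ∧
    (⁅(⊤ : LieIdeal K L), (⊤ : LieIdeal K L)⁆ = ⊤) ∧
    (∀ I : LieIdeal K L, I ≠ ⊤ → I ≤ LieAlgebra.center K L) := by
  intro K L _ _ _ h1 h2
  refine ⟨fun S => h2 _ fun h => h1 ⟨S, h⟩, ?_, ?_⟩
  · by_contra hne
    have hlt : (⁅(⊤ : LieIdeal K L), (⊤ : LieIdeal K L)⁆ : LieIdeal K L).toSubmodule < ⊤ := by
      rw [lt_top_iff_ne_top]
      intro h
      apply hne
      rw [← LieSubmodule.toSubmodule_inj, h]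
      rfl
    obtain ⟨f, hf, hle⟩ := Submodule.exists_le_ker_of_lt_top _ hlt
    let M : LieSubalgebra K L :=
      { LinearMap.ker f with
        lie_mem' := by
          intro x y _ _
          exact hle (LieSubmodule.lie_mem_lie (LieSubmodule.mem_top x) (LieSubmodule.mem_top y)) }
    have hM : M ≠ ⊤ := by
      intro h
      apply hf
      ext x
      have hx : x ∈ M := by rw [h]; trivial
      exact hx
    exact ker_inf h1 f (h2 M hM)
  · intro I hI
    have hIfin : Module.Finite K I := by
      have hne : (LieIdeal.toLieSubalgebra K L I) ≠ ⊤ := by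
        intro h
        apply hI
        rw [eq_top_iff]
        intro x _
        have hx : x ∈ LieIdeal.toLieSubalgebra K L I := by rw [h]; trivial
        exact hx
      exact h2 _ hne
    by_contra hcon
    let φ : L →ₗ[K] Module.End K I := (LieModule.toEnd K L I : L →ₗ[K] Module.End K I)
    have hφ : ∀ (x : L) (m : I), φ x m = ⁅x, m⁆ := fun x m => rfl
    have hker : ∀ x : L, x ∈ LinearMap.ker φ ↔ ∀ m : I, ⁅x, m⁆ = 0 := by
      intro x
      rw [LinearMap.mem_ker]
      constructor
      · intro h m
        rw [← hφ, h]; rfl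
      · intro h
        ext m
        rw [hφ, h]; rfl
    let M : LieSubalgebra K L :=
      { LinearMap.ker φ with
        lie_mem' := by
          intro x y hx hy
          have hx' := (hker x).mp hx
          have hy' := (hker y).mp hy
          apply (hker _).mpr
          intro m
          rw [lie_lie, hx', hy', sub_zero] }
    have hM : M ≠ ⊤ := by
      intro h
      apply hcon
      intro y hy
      rw [LieModule.mem_maxTrivSubmodule]
      intro x
      have hx : x ∈ M := by rw [h]; trivial
      have hx' := (hker x).mp hx ⟨y, hy⟩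
      exact congrArg (fun z : I => (z : L)) hx'
    exact ker_inf h1 φ (h2 M hM)

end Pool.Agent.Results.MP_36a0ac_al.PerfectSimpleQuotient
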